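import Mathlib

set_option autoImplicit false

/-!
Jacobi symbols and primes in arithmetic progressions.
-/

open NumberTheorySymbols

namespace Pool.Agent.Lib.MP_fb76f8_nt

lemma jac_neg_three {b : ℕ} (hb : Odd b) : J(-3 | b) = J(b | 3) := by
  rw [jacobiSym.neg 3 hb]
  have h3 : Odd 3 := by decide
  rcases Nat.odd_mod_four_iff.mp (Nat.odd_iff.1 hb) with h | h
  · rw [ZMod.χ₄_nat_one_mod_four h, one_mul]
    exact jacobiSym.quadratic_reciprocity_one_mod_four' (a := 3) h3 h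
  · rw [ZMod.χ₄_nat_three_mod_four h]
    have := jacobiSym.quadratic_reciprocity_three_mod_four (a := 3) (b := b) (by norm_num) h
    simp only [Nat.cast_ofNat] at this
    rw [this]
    ring

lemma jac_m3_one {b : ℕ} (hb : Odd b) (h : b % 3 = 1) : J(-3 | b) = 1 := by
  rw [jac_neg_three hb, jacobiSym.mod_left]
  have : ((b : ℤ) % ((3 : ℕ) : ℤ)) = 1 := by omega
  rw [this, jacobiSym.one_left]

lemma jac_m3_two {b : ℕ} (hb : Odd b) (h : b % 3 = 2) : J(-3 | b) = -1 := by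
  rw [jac_neg_three hb, jacobiSym.mod_left]
  have : ((b : ℤ) % ((3 : ℕ) : ℤ)) = 2 := by omega
  rw [this]
  norm_num

lemma jac_congr {a c : ℤ} {b : ℕ} (h : (b : ℤ) ∣ a - c) : J(a | b) = J(c | b) :=
  jacobiSym.mod_left' (Int.emod_eq_emod_iff_emod_sub_eq_zero.2 (Int.emod_eq_zero_of_dvd h))

lemma jac_two_seven {b : ℕ} (h : b % 8 = 7) : J(2 | b) = 1 := by
  rw [jacobiSym.at_two (Nat.odd_iff.2 (by omega)), ZMod.χ₈_nat_eq_if_mod_eight]
  rw [if_neg (by omega), if_pos (by omega)]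

lemma jac_neg_two_seven {b : ℕ} (h : b % 8 = 7) : J(-2 | b) = -1 := by
  rw [jacobiSym.at_neg_two (Nat.odd_iff.2 (by omega)), ZMod.χ₈'_nat_eq_if_mod_eight]
  rw [if_neg (by omega), if_neg (by omega)]

/-- If `b ≡ 3 (mod 4)` then `J(-b | p) = J(p | b)`. -/
lemma jac_three {b p : ℕ} (hb : b % 4 = 3) (hp : Odd p) : J(-b | p) = J(p | b) := by
  rw [jacobiSym.neg b hp]
  rcases Nat.odd_mod_four_iff.mp (Nat.odd_iff.1 hp) with h | h
  · rw [ZMod.χ₄_nat_one_mod_four h, one_mul]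
    exact jacobiSym.quadratic_reciprocity_one_mod_four' (Nat.odd_iff.2 (by omega)) h
  · rw [ZMod.χ₄_nat_three_mod_four h, jacobiSym.quadratic_reciprocity_three_mod_four hb h]
    ring

lemma sq_of_jac {p : ℕ} (hp : p.Prime) (b : ℤ) (h : J(-b | p) = 1) :
    ∃ s : ℤ, (p : ℤ) ∣ s ^ 2 + b := by
  have : Fact p.Prime := ⟨hp⟩
  obtain ⟨r, hr⟩ := ZMod.isSquare_of_jacobiSym_eq_one h
  refine ⟨(r.val : ℤ), ?_⟩
  rw [← ZMod.intCast_zmod_eq_zero_iff_dvd]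
  push_cast
  rw [ZMod.natCast_zmod_val]
  push_cast at hr
  linear_combination -hr

lemma sq_of_jac_two {p : ℕ} (hp : p.Prime) (hodd : Odd p) (b : ℤ) (h : J(-b | p) = 1) :
    ∃ s : ℤ, (2 * p : ℤ) ∣ s ^ 2 + b := by
  obtain ⟨s, hs⟩ := sq_of_jac hp b h
  obtain ⟨c, hc⟩ := hodd
  have hcop : IsCoprime (2 : ℤ) (p : ℤ) := ⟨-c, 1, by rw [hc]; push_cast; ring⟩
  by_cases h2 : (2 : ℤ) ∣ s ^ 2 + b
  · exact ⟨s, hcop.mul_dvd h2 hs⟩
  · refine ⟨s + p, hcop.mul_dvd ?_ ?_⟩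
    · have e1 : (s + p) ^ 2 + b = (s ^ 2 + b) + 2 * (s * p) + p ^ 2 := by ring
      have e2 : ((p : ℤ)) ^ 2 = 2 * (2 * c ^ 2 + 2 * c) + 1 := by rw [hc]; push_cast; ring
      rw [e1, e2]
      generalize s ^ 2 + b = u at *
      omega
    · obtain ⟨t, ht⟩ := hs
      exact ⟨t + 2 * s + p, by linear_combination ht⟩

lemma cop2 {r : ℤ} (h : r % 2 = 1) : IsCoprime r 2 :=
  ⟨1, -(r / 2), by have := Int.emod_add_mul_ediv r 2; linear_combination h - this⟩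

lemma cop3 {r : ℤ} (h : r % 3 ≠ 0) : IsCoprime r 3 := by
  have h1 : r % 3 = 1 ∨ r % 3 = 2 := by omega
  have h2 := Int.emod_add_mul_ediv r 3
  rcases h1 with h | h
  · exact ⟨1, -(r / 3), by linear_combination h - h2⟩
  · exact ⟨2, -(2 * (r / 3) + 1), by linear_combination 2 * h - 2 * h2⟩

lemma prime_ap (q : ℕ) (r : ℤ) (hq : 0 < q) (h : IsCoprime r q) :
    ∃ p k : ℕ, p.Prime ∧ 3 < p ∧ (p : ℤ) = r + q * k := by
  obtain ⟨p, hp1, hp2, hp3⟩ := Nat.forall_exists_prime_gt_and_zmodEq (r.natAbs + 3) hq.ne' h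
  obtain ⟨k, hk⟩ := hp3.symm.dvd
  have hpr : r ≤ p := by omega
  have hk0 : 0 ≤ k := by
    by_contra hneg
    push Not at hneg
    have : (q : ℤ) * k < 0 := mul_neg_of_pos_of_neg (by exact_mod_cast hq) hneg
    omega
  refine ⟨p, k.toNat, hp2, by omega, ?_⟩
  rw [Int.toNat_of_nonneg hk0]
  linear_combination hk

end Pool.Agent.Lib.MP_fb76f8_nt
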