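import Mathlib

set_option autoImplicit false

/-!
Reduction of positive definite ternary integral forms of determinant `3`.
-/

open Matrix

namespace Pool.Agent.Lib.MP_fb76f8_nt

/-- `3 × 3` integer matrices. -/
abbrev M3 := Matrix (Fin 3) (Fin 3) ℤ

/-- The value of the form at a vector. -/
def qf (B : M3) (x : Fin 3 → ℤ) : ℤ := x ⬝ᵥ B *ᵥ x

/-- The forms of determinant `3` from which `A` arises by a substitution. -/
def Cls (A : M3) : Set M3 :=
  {B | B.IsSymm ∧ B.det = 3 ∧ (∀ x, x ≠ 0 → 0 < qf B x) ∧ ∃ V : M3, A = Vᵀ * B * V}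

lemma qf_mul (B E : M3) (x : Fin 3 → ℤ) : qf (Eᵀ * B * E) x = qf B (E *ᵥ x) := by
  unfold qf
  rw [← Matrix.mulVec_mulVec, ← Matrix.mulVec_mulVec, Matrix.dotProduct_mulVec,
    ← Matrix.mulVec_transpose, Matrix.transpose_transpose]

lemma move {A B : M3} (hB : B ∈ Cls A) {E E' : M3} (hE : E * E' = 1) :
    Eᵀ * B * E ∈ Cls A := by
  obtain ⟨h1, h2, h3, V, hV⟩ := hB
  have hE' : E' * E = 1 := mul_eq_one_comm.1 hE
  refine ⟨?_, ?_, ?_, E' * V, ?_⟩
  · unfold Matrix.IsSymm at *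
    rw [Matrix.transpose_mul, Matrix.transpose_mul, Matrix.transpose_transpose, h1,
      Matrix.mul_assoc]
  · rw [Matrix.det_mul, Matrix.det_mul, Matrix.det_transpose, h2]
    have hd : E.det * E'.det = 1 := by rw [← Matrix.det_mul, hE, Matrix.det_one]
    have hd2 : E.det ^ 2 = 1 := by
      rcases Int.isUnit_iff.1 (IsUnit.of_mul_eq_one _ hd) with h | h <;> rw [h] <;> norm_num
    linear_combination 3 * hd2
  · intro x hx
    rw [qf_mul]
    apply h3
    intro h0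
    apply hx
    have : E' *ᵥ (E *ᵥ x) = x := by rw [Matrix.mulVec_mulVec, hE', Matrix.one_mulVec]
    rw [← this, h0, Matrix.mulVec_zero]
  · rw [hV, Matrix.transpose_mul]
    have e1 : Vᵀ * E'ᵀ * (Eᵀ * B * E) * (E' * V) = Vᵀ * (E'ᵀ * Eᵀ) * B * (E * E') * V := by
      simp only [Matrix.mul_assoc]
    rw [e1, ← Matrix.transpose_mul, hE, Matrix.transpose_one, Matrix.mul_one, Matrix.mul_one]

/-- Entries after a move. -/
lemma move_apply (B E : M3) (i j : Fin 3) :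
    (Eᵀ * B * E) i j = ∑ k, ∑ l, E k i * B k l * E l j := by
  rw [Matrix.mul_apply]
  simp only [Matrix.mul_apply, Matrix.transpose_apply, Finset.sum_mul]
  rw [Finset.sum_comm]

/-- Test matrices. -/
lemma symm_entries {B : M3} (h : B.IsSymm) : B 1 0 = B 0 1 ∧ B 2 0 = B 0 2 ∧ B 2 1 = B 1 2 :=
  ⟨h.apply 0 1, h.apply 0 2, h.apply 1 2⟩

lemma det_entries {B : M3} (h : B.IsSymm) : B.det =
    B 0 0 * B 1 1 * B 2 2 + 2 * B 0 1 * B 1 2 * B 0 2 - B 0 0 * B 1 2 ^ 2 - B 1 1 * B 0 2 ^ 2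
      - B 2 2 * B 0 1 ^ 2 := by
  obtain ⟨h1, h2, h3⟩ := symm_entries h
  rw [Matrix.det_fin_three, h1, h2, h3]
  ring

lemma qf_entries {B : M3} (h : B.IsSymm) (x : Fin 3 → ℤ) : qf B x =
    B 0 0 * x 0 ^ 2 + B 1 1 * x 1 ^ 2 + B 2 2 * x 2 ^ 2 + 2 * B 0 1 * x 0 * x 1 +
      2 * B 0 2 * x 0 * x 2 + 2 * B 1 2 * x 1 * x 2 := by
  obtain ⟨h1, h2, h3⟩ := symm_entries h
  unfold qf
  simp only [dotProduct, Matrix.mulVec, Fin.sum_univ_three, h1, h2, h3]
  ring

lemma pos_entries {A B : M3} (hB : B ∈ Cls A) : 0 < B 0 0 ∧ 0 < B 0 0 * B 1 1 - B 0 1 ^ 2 := by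
  obtain ⟨h1, h2, h3, -⟩ := hB
  have ha : 0 < B 0 0 := by
    have := h3 ![1, 0, 0] (by intro h; simpa using congrFun h 0)
    rw [qf_entries h1] at this
    simpa using this
  refine ⟨ha, ?_⟩
  have := h3 ![-B 0 1, B 0 0, 0] (by
    intro h
    have := congrFun h 1
    simp at this
    omega)
  rw [qf_entries h1] at this
  simp only [Matrix.cons_val_zero, Matrix.cons_val_one, Matrix.cons_val] at this
  have h4 : 0 < B 0 0 * (B 0 0 * B 1 1 - B 0 1 ^ 2) := by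
    calc 0 < _ := this
      _ = _ := by ring
  exact (mul_pos_iff_of_pos_left ha).1 h4

lemma round_exists (x b : ℤ) (hb : 0 < b) : ∃ k : ℤ, 2 * |x + k * b| ≤ b := by
  refine ⟨-((2 * x + b) / (2 * b)), ?_⟩
  have h1 := Int.mul_ediv_add_emod (2 * x + b) (2 * b)
  have h2 := Int.emod_nonneg (2 * x + b) (by positivity : (2 * b) ≠ 0)
  have h3 := Int.emod_lt_of_pos (2 * x + b) (by positivity : 0 < 2 * b)
  set r := (2 * x + b) / (2 * b)
  set s := (2 * x + b) % (2 * b)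
  have h4 : 2 * (x + -r * b) = s - b := by linear_combination -h1
  have h5 : |2 * (x + -r * b)| ≤ b := by
    rw [h4, abs_le]
    constructor <;> linarith
  rwa [abs_mul, abs_two] at h5

/-- The minor. -/
def minor (B : M3) : ℤ := B 0 0 * B 1 1 - B 0 1 ^ 2

lemma exists_min {A : M3} (hA : A ∈ Cls A) : ∃ B ∈ Cls A, (∀ C ∈ Cls A, B 0 0 ≤ C 0 0) ∧
    ∀ C ∈ Cls A, C 0 0 = B 0 0 → minor B ≤ minor C := by
  obtain ⟨B₀, hB₀, hmin⟩ := (measure (fun B : M3 => (B 0 0).toNat)).wf.has_min (Cls A) ⟨A, hA⟩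
  have hmin' : ∀ C ∈ Cls A, B₀ 0 0 ≤ C 0 0 := by
    intro C hC
    have h1 := hmin C hC
    have h2 := (pos_entries hB₀).1
    have h3 := (pos_entries hC).1
    change ¬ (C 0 0).toNat < (B₀ 0 0).toNat at h1
    omega
  obtain ⟨B, hB, hmin2⟩ := (measure (fun B : M3 => (minor B).toNat)).wf.has_min
    {C | C ∈ Cls A ∧ C 0 0 = B₀ 0 0} ⟨B₀, hB₀, rfl⟩
  refine ⟨B, hB.1, ?_, ?_⟩
  · intro C hC
    rw [hB.2]
    exact hmin' C hC
  · intro C hC h
    have h1 := hmin2 C ⟨hC, h.trans hB.2⟩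
    have h2 : 0 < minor B := (pos_entries hB.1).2
    have h3 : 0 < minor C := (pos_entries hC).2
    change ¬ (minor C).toNat < (minor B).toNat at h1
    omega

lemma min_bounds {A B : M3} (hB : B ∈ Cls A) (h1 : ∀ C ∈ Cls A, B 0 0 ≤ C 0 0)
    (h2 : ∀ C ∈ Cls A, C 0 0 = B 0 0 → minor B ≤ minor C) : B 0 0 = 1 ∧ minor B ^ 2 ≤ 4 := by
  obtain ⟨hs, hd, hp, -⟩ := id hB
  obtain ⟨ha, hb⟩ := pos_entries hB
  obtain ⟨s1, s2, s3⟩ := symm_entries hs
  change 0 < minor B at hb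
  rw [det_entries hs] at hd
  set a := B 0 0 with hadef
  set b := minor B with hbdef
  have hbe : b = a * B 1 1 - B 0 1 ^ 2 := rfl
  set β := a * B 1 2 - B 0 1 * B 0 2 with hβ
  -- first inequality
  have i1 : 3 * a ^ 2 ≤ 4 * b := by
    obtain ⟨j, hj⟩ := round_exists (B 0 1) a ha
    have hE : (!![j, 1, 0; 1, 0, 0; 0, 0, 1] : M3) * !![0, 1, 0; 1, -j, 0; 0, 0, 1] = 1 := by
      ext i k
      fin_cases i <;> fin_cases k <;> simp [Matrix.mul_apply, Fin.sum_univ_three]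
    have hC := move hB hE
    have h3 := h1 _ hC
    rw [move_apply] at h3
    simp [Fin.sum_univ_three, s1] at h3
    have h4 : a ≤ j * a * j + B 0 1 * j + (j * B 0 1 + B 1 1) :=
      le_trans h3 (le_of_eq (by ring))
    have h5 : a * a ≤ (B 0 1 + j * a) ^ 2 + b := by
      calc a * a ≤ a * (j * a * j + B 0 1 * j + (j * B 0 1 + B 1 1)) :=
            mul_le_mul_of_nonneg_left h4 ha.le
        _ = _ := by rw [hbe]; ring
    have h6 : 4 * (B 0 1 + j * a) ^ 2 ≤ a ^ 2 := by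
      have := abs_nonneg (B 0 1 + j * a)
      have h7 : (2 * |B 0 1 + j * a|) ^ 2 ≤ a ^ 2 := pow_le_pow_left₀ (by positivity) hj 2
      rw [mul_pow, sq_abs] at h7
      linarith
    linarith
  have i2 : b ^ 2 ≤ 4 * a := by
    obtain ⟨k, hk⟩ := round_exists β b hb
    have hE : (!![1, 0, 0; 0, k, 1; 0, 1, 0] : M3) * !![1, 0, 0; 0, 0, 1; 0, 1, -k] = 1 := by
      ext i j
      fin_cases i <;> fin_cases j <;> simp [Matrix.mul_apply, Fin.sum_univ_three]
    have hC := move hB hE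
    have h3 := h2 _ hC (by
      rw [move_apply]
      simp [Fin.sum_univ_three]
      rfl)
    unfold minor at h3
    simp only [move_apply] at h3
    simp [Fin.sum_univ_three, s3] at h3
    have h4 : b ≤ a * (k * B 1 1 * k + B 1 2 * k + (k * B 1 2 + B 2 2)) -
        (B 0 1 * k + B 0 2) ^ 2 := le_trans h3 (le_of_eq (by ring))
    have h5 : b * b ≤ (β + k * b) ^ 2 + 3 * a := by
      calc b * b ≤ b * (a * (k * B 1 1 * k + B 1 2 * k + (k * B 1 2 + B 2 2)) -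
        (B 0 1 * k + B 0 2) ^ 2) := mul_le_mul_of_nonneg_left h4 hb.le
        _ = _ := by
            rw [hβ]
            rw [hbe]
            linear_combination a * hd
    have h6 : 4 * (β + k * b) ^ 2 ≤ b ^ 2 := by
      have := abs_nonneg (β + k * b)
      have h7 : (2 * |β + k * b|) ^ 2 ≤ b ^ 2 := pow_le_pow_left₀ (by positivity) hk 2
      rw [mul_pow, sq_abs] at h7
      linarith
    linarith
  have i3 : a = 1 := by
    by_contra hne
    have ha2 : 2 ≤ a := by omega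
    have h3 : (3 * a ^ 2) ^ 2 ≤ (4 * b) ^ 2 := pow_le_pow_left₀ (by positivity) i1 2
    have h4 : 9 * a ^ 4 ≤ 64 * a := by nlinarith
    have h5 : 9 * a ^ 3 ≤ 64 := by
      have : a * (9 * a ^ 3) ≤ a * 64 := by nlinarith
      exact le_of_mul_le_mul_left this ha
    have h6 : (2 : ℤ) ^ 3 ≤ a ^ 3 := pow_le_pow_left₀ (by norm_num) ha2 3
    linarith
  refine ⟨i3, ?_⟩
  rw [i3] at i2
  linarith

/-- The three final forms. -/
def D1 : M3 := !![1, 0, 0; 0, 1, 0; 0, 0, 3]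
def D2 (ε : ℤ) : M3 := !![1, 0, 0; 0, 2, ε; 0, ε, 2]

theorem classify {A : M3} (hs : A.IsSymm) (hd : A.det = 3) (hp : ∀ x, x ≠ 0 → 0 < qf A x) :
    ∃ V : M3, A = Vᵀ * D1 * V ∨ A = Vᵀ * D2 1 * V ∨ A = Vᵀ * D2 (-1) * V := by
  have hA : A ∈ Cls A := ⟨hs, hd, hp, 1, by simp⟩
  obtain ⟨B, hB, h1, h2⟩ := exists_min hA
  obtain ⟨ha, hb4⟩ := min_bounds hB h1 h2
  have hb := (pos_entries hB).2
  change 0 < minor B at hb
  -- clear the first row
  have hE : (!![1, -B 0 1, -B 0 2; 0, 1, 0; 0, 0, 1] : M3) *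
      !![1, B 0 1, B 0 2; 0, 1, 0; 0, 0, 1] = 1 := by
    ext i j
    fin_cases i <;> fin_cases j <;> simp [Matrix.mul_apply, Fin.sum_univ_three]
  have hC := move hB hE
  obtain ⟨C, hCdef⟩ : ∃ C, C = (!![1, -B 0 1, -B 0 2; 0, 1, 0; 0, 0, 1] : M3)ᵀ * B *
    !![1, -B 0 1, -B 0 2; 0, 1, 0; 0, 0, 1] := ⟨_, rfl⟩
  rw [← hCdef] at hC
  have c00 : C 0 0 = 1 := by
    rw [hCdef, move_apply]; simp [Fin.sum_univ_three, ha]
  have c01 : C 0 1 = 0 := by
    rw [hCdef, move_apply]; simp [Fin.sum_univ_three, ha]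
  have c02 : C 0 2 = 0 := by
    rw [hCdef, move_apply]; simp [Fin.sum_univ_three, ha]
  have c11 : C 1 1 = minor B := by
    obtain ⟨s1, s2, s3⟩ := symm_entries hB.1
    rw [hCdef, move_apply]
    simp [Fin.sum_univ_three, ha, s1, minor]
    ring
  clear hCdef hE
  -- reduce the binary part
  obtain ⟨k, hk⟩ := round_exists (C 1 2) (C 1 1) (by rw [c11]; exact hb)
  have hE : (!![1, 0, 0; 0, 1, k; 0, 0, 1] : M3) * !![1, 0, 0; 0, 1, -k; 0, 0, 1] = 1 := by
    ext i j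
    fin_cases i <;> fin_cases j <;> simp [Matrix.mul_apply, Fin.sum_univ_three]
  have hD := move hC hE
  obtain ⟨D, hDdef⟩ : ∃ D, D = (!![1, 0, 0; 0, 1, k; 0, 0, 1] : M3)ᵀ * C *
    !![1, 0, 0; 0, 1, k; 0, 0, 1] := ⟨_, rfl⟩
  rw [← hDdef] at hD
  have d00 : D 0 0 = 1 := by
    rw [hDdef, move_apply]; simp [Fin.sum_univ_three, c00]
  have d01 : D 0 1 = 0 := by
    rw [hDdef, move_apply]; simp [Fin.sum_univ_three, c01]
  have d02 : D 0 2 = 0 := by
    rw [hDdef, move_apply]; simp [Fin.sum_univ_three, c01, c02]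
  have d11 : D 1 1 = minor B := by
    rw [hDdef, move_apply]; simp [Fin.sum_univ_three, c11]
  have d12 : D 1 2 = C 1 2 + k * C 1 1 := by
    rw [hDdef, move_apply]; simp [Fin.sum_univ_three]; ring
  clear hDdef hE
  obtain ⟨t1, t2, t3⟩ := symm_entries hD.1
  have hdet := hD.2.1
  rw [det_entries hD.1, d00, d01, d02, d11] at hdet
  rw [← d12, c11] at hk
  have hDeq : ∀ b β c : ℤ, D 1 1 = b → D 1 2 = β → D 2 2 = c →
      D = !![1, 0, 0; 0, b, β; 0, β, c] := by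
    intro b β c e1 e2 e3
    ext i j
    fin_cases i <;> fin_cases j <;> simp [d00, d01, d02, t1, t2, t3, e1, e2, e3]
  obtain ⟨V, hV⟩ := hD.2.2.2
  have hbv : minor B = 1 ∨ minor B = 2 := by
    have : minor B ≤ 2 := by nlinarith
    omega
  have hk' := abs_le.1 (show |D 1 2| ≤ 1 by
    rcases hbv with h | h <;> rw [h] at hk <;> omega)
  refine ⟨V, ?_⟩
  rcases hbv with h | h
  · left
    rw [h] at hdet hk d11
    have h3 : D 1 2 = 0 := by
      have := abs_nonneg (D 1 2)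
      have : |D 1 2| = 0 := by omega
      exact abs_eq_zero.1 this
    rw [h3] at hdet
    have h4 : D 2 2 = 3 := by linarith
    rw [hV, hDeq 1 0 3 d11 h3 h4]
    rfl
  · right
    rw [h] at hdet hk d11
    have h5 : D 1 2 = -1 ∨ D 1 2 = 0 ∨ D 1 2 = 1 := by omega
    rcases h5 with h3 | h3 | h3
    · right
      rw [h3] at hdet
      have h4 : D 2 2 = 2 := by linarith
      rw [hV, hDeq 2 (-1) 2 d11 h3 h4]
      rfl
    · exfalso
      rw [h3] at hdet
      omega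
    · left
      rw [h3] at hdet
      have h4 : D 2 2 = 2 := by linarith
      rw [hV, hDeq 2 1 2 d11 h3 h4]
      rfl

end Pool.Agent.Lib.MP_fb76f8_nt
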