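import Mathlib
import Pool.Agent.Lib.MP_fb76f8_nt.Reduction
import Pool.Agent.Lib.MP_fb76f8_nt.Jac

set_option autoImplicit false

/-!
Representations by `x² + y² + 3 z²`.
-/

open Matrix NumberTheorySymbols

namespace Pool.Agent.Lib.MP_fb76f8_nt

/-- The number `m` is of the form `x² + y² + 3 z²`. -/
def Rep (m : ℤ) : Prop := ∃ x y z : ℤ, x ^ 2 + y ^ 2 + 3 * z ^ 2 = m

lemma minor_mod_aux (P P' P'' s s' s'' X : ℤ) (h : P * P' - P'' ^ 2 = -X ^ 2) :
    ((P + 3 * s) * (P' + 3 * s') - (P'' + 3 * s'') ^ 2) % 3 ≠ 1 := by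
  have e1 : (P + 3 * s) * (P' + 3 * s') - (P'' + 3 * s'') ^ 2 =
      -X ^ 2 + 3 * (s * P' + s' * P + 3 * s * s' - 2 * P'' * s'' - 3 * s'' ^ 2) := by
    linear_combination h
  rw [e1]
  have h2 : X % 3 = 0 ∨ X % 3 = 1 ∨ X % 3 = 2 := by omega
  have h3 : X = 3 * (X / 3) + X % 3 := by omega
  generalize s * P' + s' * P + 3 * s * s' - 2 * P'' * s'' - 3 * s'' ^ 2 = K
  generalize X / 3 = w at h3
  rcases h2 with h | h | h <;> rw [h] at h3
  · have : -X ^ 2 + 3 * K = 3 * (-3 * w ^ 2 + K) := by rw [h3]; ring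
    rw [this]; omega
  · have : -X ^ 2 + 3 * K = 3 * (-3 * w ^ 2 - 2 * w + K) - 1 := by rw [h3]; ring
    rw [this]; omega
  · have : -X ^ 2 + 3 * K = 3 * (-3 * w ^ 2 - 4 * w - 1 + K) - 1 := by rw [h3]; ring
    rw [this]; omega

theorem rep_of_sq (m t b n : ℤ) (hn : 0 < n) (hb : 0 < b) (hb3 : b % 3 = 1)
    (hdet : m * b - t ^ 2 * n = 3) (hsq : ∃ s : ℤ, n ∣ s ^ 2 + b) : Rep m := by
  obtain ⟨s, a, ha⟩ := hsq
  have hapos : 0 < a := by
    have : 0 < n * a := by rw [← ha]; positivity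
    exact (mul_pos_iff_of_pos_left hn).1 this
  set A : M3 := !![a, s, t; s, n, 0; t, 0, m] with hA
  have hs : A.IsSymm := by
    ext i j
    fin_cases i <;> fin_cases j <;> rfl
  have hd : A.det = 3 := by
    rw [det_entries hs]
    simp [hA]
    linear_combination hdet - m * ha
  have hp : ∀ x, x ≠ 0 → 0 < qf A x := by
    intro x hx
    rw [qf_entries hs]
    simp [hA]
    by_contra hneg
    push Not at hneg
    have key : b * (a * (a * x 0 ^ 2 + n * x 1 ^ 2 + m * x 2 ^ 2 + 2 * s * x 0 * x 1 +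
        2 * t * x 0 * x 2)) = b * (a * x 0 + s * x 1 + t * x 2) ^ 2 +
        (b * x 1 - s * t * x 2) ^ 2 + 3 * a * x 2 ^ 2 := by
      linear_combination (b * x 1 ^ 2 + t ^ 2 * x 2 ^ 2) * (-ha) + (a * x 2 ^ 2) * hdet
    have h1 : b * (a * (a * x 0 ^ 2 + n * x 1 ^ 2 + m * x 2 ^ 2 + 2 * s * x 0 * x 1 +
        2 * t * x 0 * x 2)) ≤ 0 := by
      apply mul_nonpos_of_nonneg_of_nonpos hb.le
      exact mul_nonpos_of_nonneg_of_nonpos hapos.le hneg
    rw [key] at h1
    have p1 : 0 ≤ b * (a * x 0 + s * x 1 + t * x 2) ^ 2 := by positivity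
    have p2 : 0 ≤ (b * x 1 - s * t * x 2) ^ 2 := by positivity
    have p3 : 0 ≤ 3 * a * x 2 ^ 2 := by positivity
    have q3 : 3 * a * x 2 ^ 2 = 0 := by linarith
    have q2 : (b * x 1 - s * t * x 2) ^ 2 = 0 := by linarith
    have q1 : b * (a * x 0 + s * x 1 + t * x 2) ^ 2 = 0 := by linarith
    have z2 : x 2 = 0 := by
      rcases mul_eq_zero.1 q3 with h | h
      · omega
      · exact pow_eq_zero_iff (by norm_num) |>.1 h
    have z1 : x 1 = 0 := by
      have h := pow_eq_zero_iff (two_ne_zero) |>.1 q2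
      rw [z2, mul_zero, sub_zero] at h
      rcases mul_eq_zero.1 h with h | h
      · omega
      · exact h
    have z0 : x 0 = 0 := by
      rcases mul_eq_zero.1 q1 with h | h
      · omega
      · have h := pow_eq_zero_iff (two_ne_zero) |>.1 h
        rw [z1, z2, mul_zero, mul_zero, add_zero, add_zero] at h
        rcases mul_eq_zero.1 h with h | h
        · omega
        · exact h
    apply hx
    ext i
    fin_cases i
    · exact z0
    · exact z1
    · exact z2
  obtain ⟨V, hV⟩ := classify hs hd hp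
  have hb' : b = A 0 0 * A 1 1 - A 0 1 ^ 2 := by
    simp [hA]
    linear_combination ha
  have hm : A 2 2 = m := by simp [hA]
  rcases hV with hV | hV | hV
  · refine ⟨V 0 2, V 1 2, V 2 2, ?_⟩
    rw [← hm, hV, move_apply]
    simp [Fin.sum_univ_three, D1]
    ring
  · exfalso
    have h1 : ∀ i j, A i j = (V 0 i * V 0 j - (V 1 i - V 2 i) * (V 1 j - V 2 j)) +
        3 * (V 1 i * V 1 j + V 2 i * V 2 j) := by
      intro i j
      rw [hV, move_apply]
      simp [Fin.sum_univ_three, D2]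
      ring
    rw [h1, h1, h1] at hb'
    rw [hb'] at hb3
    exact minor_mod_aux _ _ _ _ _ _ (V 0 0 * (V 1 1 - V 2 1) - V 0 1 * (V 1 0 - V 2 0))
      (by ring) hb3
  · exfalso
    have h1 : ∀ i j, A i j = (V 0 i * V 0 j - (V 1 i + V 2 i) * (V 1 j + V 2 j)) +
        3 * (V 1 i * V 1 j + V 2 i * V 2 j) := by
      intro i j
      rw [hV, move_apply]
      simp [Fin.sum_univ_three, D2]
      ring
    rw [h1, h1, h1] at hb'
    rw [hb'] at hb3
    exact minor_mod_aux _ _ _ _ _ _ (V 0 0 * (V 1 1 + V 2 1) - V 0 1 * (V 1 0 + V 2 0))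
      (by ring) hb3

end Pool.Agent.Lib.MP_fb76f8_nt
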