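import Mathlib
import Pool.Agent.Lib.MP_fb76f8_nt.Rep

set_option autoImplicit false

/-!
Every positive integer not of the form `9 ^ k (9 l + 6)` is of the form `x² + y² + 3 z²`.
-/

open Matrix NumberTheorySymbols

namespace Pool.Agent.Lib.MP_fb76f8_nt

lemma case1a (m : ℕ) (h4 : m % 4 = 2) (h3 : m % 3 ≠ 0) : Rep m := by
  have c2 : IsCoprime (7 * m - 3 : ℤ) 2 := cop2 (by omega)
  have c3 : IsCoprime (7 * m - 3 : ℤ) 3 := cop3 (by omega)
  have cm : IsCoprime (7 * m - 3 : ℤ) m := by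
    have h : IsCoprime (-3 : ℤ) m := (cop3 (r := (m : ℤ)) (by omega)).symm.neg_left
    have := h.add_mul_left_left (z := 7)
    have e : (-3 + (m : ℤ) * 7) = 7 * m - 3 := by ring
    rwa [e] at this
  obtain ⟨p, k, hp, hp3, hpk⟩ := prime_ap (2 * 2 * 3 * m) (7 * m - 3) (by omega)
    (by push_cast; exact ((c2.mul_right c2).mul_right c3).mul_right cm)
  push_cast at hpk
  have hodd : Odd p := hp.odd_of_ne_two (by omega)
  have hdvd : ((12 * k + 7 : ℕ) : ℤ) ∣ (p : ℤ) - (-3) := ⟨m, by push_cast; linear_combination hpk⟩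
  have hj : J(-((12 * k + 7 : ℕ) : ℤ) | p) = 1 := by
    rw [jac_three (by omega) hodd, jac_congr hdvd, jac_m3_one (Nat.odd_iff.2 (by omega)) (by omega)]
  refine rep_of_sq m 1 ((12 * k + 7 : ℕ) : ℤ) p (by omega) (by omega) (by omega) ?_
    (sq_of_jac hp _ hj)
  push_cast
  linear_combination -hpk

lemma case1b (m : ℕ) (h4 : m % 4 = 3) (h3 : m % 3 ≠ 0) : Rep m := by
  obtain ⟨μ, rfl⟩ : ∃ μ, m = 4 * μ + 3 := ⟨m / 4, by omega⟩
  have c2 : IsCoprime (14 * μ + 9 : ℤ) 2 := cop2 (by omega)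
  have c3 : IsCoprime (14 * μ + 9 : ℤ) 3 := cop3 (by omega)
  have cm : IsCoprime (14 * μ + 9 : ℤ) ((4 * μ + 3 : ℕ) : ℤ) := by
    have h : IsCoprime (-3 : ℤ) ((4 * μ + 3 : ℕ) : ℤ) :=
      (cop3 (r := ((4 * μ + 3 : ℕ) : ℤ)) (by omega)).symm.neg_left
    have := h.add_mul_left_left (z := 7)
    have e : (-3 + ((4 * μ + 3 : ℕ) : ℤ) * 7) = 2 * (14 * μ + 9) := by push_cast; ring
    rw [e] at this
    exact this.of_mul_left_right
  obtain ⟨p, k, hp, hp3, hpk⟩ := prime_ap (2 * 2 * 3 * (4 * μ + 3)) (14 * μ + 9) (by omega)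
    (by push_cast; push_cast at cm; exact ((c2.mul_right c2).mul_right c3).mul_right cm)
  push_cast at hpk
  have hodd : Odd p := hp.odd_of_ne_two (by omega)
  have hdvd : ((24 * k + 7 : ℕ) : ℤ) ∣ (2 * p : ℤ) - (-3) :=
    ⟨4 * μ + 3, by push_cast; linear_combination 2 * hpk⟩
  have hj : J(-((24 * k + 7 : ℕ) : ℤ) | p) = 1 := by
    rw [jac_three (by omega) hodd]
    have e1 : J((2 * p : ℤ) | 24 * k + 7) = 1 := by
      rw [jac_congr hdvd, jac_m3_one (Nat.odd_iff.2 (by omega)) (by omega)]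
    rw [jacobiSym.mul_left, jac_two_seven (by omega), one_mul] at e1
    exact e1
  refine rep_of_sq ((4 * μ + 3 : ℕ) : ℤ) 1 ((24 * k + 7 : ℕ) : ℤ) (2 * p) (by omega) (by omega)
    (by omega) ?_ (sq_of_jac_two hp hodd _ hj)
  push_cast
  linear_combination (-2) * hpk

lemma case1c (m : ℕ) (h4 : m % 4 = 1) (h3 : m % 3 ≠ 0) : Rep m := by
  have c2 : IsCoprime (10 * m - 3 : ℤ) 2 := cop2 (by omega)
  have c3 : IsCoprime (10 * m - 3 : ℤ) 3 := cop3 (by omega)
  have cm : IsCoprime (10 * m - 3 : ℤ) m := by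
    have h : IsCoprime (-3 : ℤ) m := (cop3 (r := (m : ℤ)) (by omega)).symm.neg_left
    have := h.add_mul_left_left (z := 10)
    have e : (-3 + (m : ℤ) * 10) = 10 * m - 3 := by ring
    rwa [e] at this
  obtain ⟨p, k, hp, hp3, hpk⟩ := prime_ap (2 * 2 * 2 * 3 * m) (10 * m - 3) (by omega)
    (by push_cast; exact (((c2.mul_right c2).mul_right c2).mul_right c3).mul_right cm)
  push_cast at hpk
  have hodd : Odd p := hp.odd_of_ne_two (by omega)
  have hdvd : ((12 * k + 5 : ℕ) : ℤ) ∣ (p : ℤ) - (-3) :=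
    ⟨2 * m, by push_cast; linear_combination hpk⟩
  have hp8 : p % 8 = 7 := by
    have e : (p : ℤ) = 10 * m - 3 + 24 * (m * k) := by rw [hpk]; ring
    generalize (m : ℤ) * k = K at e
    omega
  have hj : J(-((24 * k + 10 : ℕ) : ℤ) | p) = 1 := by
    have e : -((24 * k + 10 : ℕ) : ℤ) = -2 * ((12 * k + 5 : ℕ) : ℤ) := by push_cast; ring
    rw [e, jacobiSym.mul_left, jac_neg_two_seven hp8,
      jacobiSym.quadratic_reciprocity_one_mod_four (by omega) hodd, jac_congr hdvd,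
      jac_m3_two (Nat.odd_iff.2 (by omega)) (by omega)]
    norm_num
  refine rep_of_sq m 1 ((24 * k + 10 : ℕ) : ℤ) p (by omega) (by omega) (by omega) ?_
    (sq_of_jac hp _ hj)
  push_cast
  linear_combination -hpk

lemma case2a (m : ℕ) (h4 : m % 4 = 2) (h3 : m % 3 = 1) : Rep (3 * m) := by
  obtain ⟨ν, hν⟩ : ∃ ν, m = 3 * ν + 1 := ⟨m / 3, by omega⟩
  have c2 : IsCoprime (7 * ν + 2 : ℤ) 2 := cop2 (by omega)
  have cm : IsCoprime (7 * ν + 2 : ℤ) m := ⟨-3, 7, by rw [hν]; push_cast; ring⟩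
  obtain ⟨p, k, hp, hp3, hpk⟩ := prime_ap (2 * 2 * m) (7 * ν + 2) (by omega)
    (by push_cast; exact (c2.mul_right c2).mul_right cm)
  push_cast at hpk
  have hν' : (m : ℤ) = 3 * ν + 1 := by rw [hν]; push_cast; ring
  have hodd : Odd p := hp.odd_of_ne_two (by omega)
  have hdvd : ((12 * k + 7 : ℕ) : ℤ) ∣ (-3 * p : ℤ) - 1 :=
    ⟨-m, by push_cast; linear_combination (-3) * hpk + 7 * hν'⟩
  have hj : J(-((12 * k + 7 : ℕ) : ℤ) | p) = 1 := by
    rw [jac_three (by omega) hodd]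
    have e1 : J((-3 * p : ℤ) | 12 * k + 7) = 1 := by
      rw [jac_congr hdvd, jacobiSym.one_left]
    rw [jacobiSym.mul_left, jac_m3_one (Nat.odd_iff.2 (by omega)) (by omega), one_mul] at e1
    exact e1
  refine rep_of_sq (3 * m) 3 ((12 * k + 7 : ℕ) : ℤ) p (by omega) (by omega) (by omega) ?_
    (sq_of_jac hp _ hj)
  push_cast
  linear_combination (-9) * hpk + 21 * hν'

lemma case2b (m : ℕ) (h4 : m % 4 = 1) (h3 : m % 3 = 1) : Rep (3 * m) := by
  obtain ⟨ν, hν⟩ : ∃ ν, m = 12 * ν + 1 := ⟨m / 12, by omega⟩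
  have c2 : IsCoprime (14 * ν + 1 : ℤ) 2 := cop2 (by omega)
  have cm : IsCoprime (14 * ν + 1 : ℤ) m := ⟨-6, 7, by rw [hν]; push_cast; ring⟩
  obtain ⟨p, k, hp, hp3, hpk⟩ := prime_ap (2 * 2 * m) (14 * ν + 1) (by omega)
    (by push_cast; exact (c2.mul_right c2).mul_right cm)
  push_cast at hpk
  have hν' : (m : ℤ) = 12 * ν + 1 := by rw [hν]; push_cast; ring
  have hodd : Odd p := hp.odd_of_ne_two (by omega)
  have hdvd : ((24 * k + 7 : ℕ) : ℤ) ∣ (-3 * 2 * p : ℤ) - 1 :=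
    ⟨-m, by push_cast; linear_combination (-6) * hpk + 7 * hν'⟩
  have hj : J(-((24 * k + 7 : ℕ) : ℤ) | p) = 1 := by
    rw [jac_three (by omega) hodd]
    have e1 : J((-3 * 2 * p : ℤ) | 24 * k + 7) = 1 := by
      rw [jac_congr hdvd, jacobiSym.one_left]
    rw [jacobiSym.mul_left, jacobiSym.mul_left, jac_m3_one (Nat.odd_iff.2 (by omega)) (by omega),
      jac_two_seven (by omega), one_mul, one_mul] at e1
    exact e1
  refine rep_of_sq (3 * m) 3 ((24 * k + 7 : ℕ) : ℤ) (2 * p) (by omega) (by omega) (by omega) ?_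
    (sq_of_jac_two hp hodd _ hj)
  push_cast
  linear_combination (-18) * hpk + 21 * hν'

lemma case2c (m : ℕ) (h4 : m % 4 = 3) (h3 : m % 3 = 1) : Rep (3 * m) := by
  obtain ⟨ν, hν⟩ : ∃ ν, m = 3 * ν + 1 := ⟨m / 3, by omega⟩
  have c2 : IsCoprime (10 * ν + 3 : ℤ) 2 := cop2 (by omega)
  have cm : IsCoprime (10 * ν + 3 : ℤ) m := ⟨-3, 10, by rw [hν]; push_cast; ring⟩
  obtain ⟨p, k, hp, hp3, hpk⟩ := prime_ap (2 * 2 * 2 * m) (10 * ν + 3) (by omega)
    (by push_cast; exact ((c2.mul_right c2).mul_right c2).mul_right cm)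
  push_cast at hpk
  have hν' : (m : ℤ) = 3 * ν + 1 := by rw [hν]; push_cast; ring
  have hodd : Odd p := hp.odd_of_ne_two (by omega)
  have hdvd : ((12 * k + 5 : ℕ) : ℤ) ∣ (-3 * p : ℤ) - 1 :=
    ⟨-(2 * m), by push_cast; linear_combination (-3) * hpk + 10 * hν'⟩
  have hp8 : p % 8 = 7 := by
    have e : (p : ℤ) = 10 * ν + 3 + 8 * (m * k) := by rw [hpk]; ring
    generalize (m : ℤ) * k = K at e
    omega
  have hj : J(-((24 * k + 10 : ℕ) : ℤ) | p) = 1 := by
    have e : -((24 * k + 10 : ℕ) : ℤ) = -2 * ((12 * k + 5 : ℕ) : ℤ) := by push_cast; ring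
    have e1 : J((-3 * p : ℤ) | 12 * k + 5) = 1 := by
      rw [jac_congr hdvd, jacobiSym.one_left]
    rw [jacobiSym.mul_left, jac_m3_two (Nat.odd_iff.2 (by omega)) (by omega)] at e1
    rw [e, jacobiSym.mul_left, jac_neg_two_seven hp8,
      jacobiSym.quadratic_reciprocity_one_mod_four (by omega) hodd]
    exact e1
  refine rep_of_sq (3 * m) 3 ((24 * k + 10 : ℕ) : ℤ) p (by omega) (by omega) (by omega) ?_
    (sq_of_jac hp _ hj)
  push_cast
  linear_combination (-9) * hpk + 30 * hν'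

/-- The numbers represented by `x² + y² + 3 z²`. -/
theorem rep_all (m : ℕ) (hm : ∀ k l : ℕ, m ≠ 9 ^ k * (9 * l + 6)) : Rep m := by
  induction m using Nat.strong_induction_on with
  | _ m ih =>
    rcases Nat.eq_zero_or_pos m with h0 | h0
    · exact ⟨0, 0, 0, by simp [h0]⟩
    by_cases h4 : m % 4 = 0
    · obtain ⟨m₁, rfl⟩ : ∃ m₁, m = 4 * m₁ := ⟨m / 4, by omega⟩
      obtain ⟨x, y, z, h⟩ := ih m₁ (by omega) (by
        intro k l h
        apply hm k (4 * l + 2)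
        rw [h]
        ring)
      exact ⟨2 * x, 2 * y, 2 * z, by push_cast; linear_combination 4 * h⟩
    by_cases h9 : m % 9 = 0
    · obtain ⟨m₁, rfl⟩ : ∃ m₁, m = 9 * m₁ := ⟨m / 9, by omega⟩
      obtain ⟨x, y, z, h⟩ := ih m₁ (by omega) (by
        intro k l h
        apply hm (k + 1) l
        rw [h]
        ring)
      exact ⟨3 * x, 3 * y, 3 * z, by push_cast; linear_combination 9 * h⟩
    by_cases h3 : m % 3 = 0
    · obtain ⟨m', rfl⟩ : ∃ m', m = 3 * m' := ⟨m / 3, by omega⟩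
      have h1 : m' % 3 = 1 := by
        by_contra hne
        apply hm 0 (m' / 3)
        omega
      have h2 : m' % 4 = 1 ∨ m' % 4 = 2 ∨ m' % 4 = 3 := by omega
      push_cast
      rcases h2 with h | h | h
      · exact case2b m' h h1
      · exact case2a m' h h1
      · exact case2c m' h h1
    · have h2 : m % 4 = 1 ∨ m % 4 = 2 ∨ m % 4 = 3 := by omega
      rcases h2 with h | h | h
      · exact case1c m h h3
      · exact case1a m h h3
      · exact case1b m h h3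

end Pool.Agent.Lib.MP_fb76f8_nt
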