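import Mathlib
import Pool.Agent.Lib.MP_fb76f8_nt.Cases

set_option autoImplicit false

/-!
From `x² + y² + 3 z²` to triangular numbers.
-/

namespace Pool.Agent.Lib.MP_fb76f8_nt

/-- `4 m = a² + b² + 3 c²` with `c` odd. -/
def Odd4 (m : ℤ) : Prop := ∃ a b c : ℤ, a ^ 2 + b ^ 2 + 3 * c ^ 2 = 4 * m ∧ c % 2 = 1

lemma odd4_of_ne {m u v z : ℤ} (h : u ^ 2 + v ^ 2 + 3 * z ^ 2 = m) (hne : (u - z) % 2 = 1) :
    Odd4 m :=
  ⟨u + 3 * z, 2 * v, u - z, by rw [← h]; ring, hne⟩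

lemma odd4_of_not_all {m u v z : ℤ} (h : u ^ 2 + v ^ 2 + 3 * z ^ 2 = m)
    (hne : (u - z) % 2 = 1 ∨ (v - z) % 2 = 1) : Odd4 m := by
  rcases hne with h1 | h1
  · exact odd4_of_ne h h1
  · exact odd4_of_ne (v := u) (by rw [← h]; ring) h1

theorem odd4_of_rep (m : ℕ) (hm : 0 < m) (h : Rep m) : Odd4 m := by
  induction m using Nat.strong_induction_on with
  | _ m ih =>
    obtain ⟨u, v, z, h⟩ := h
    by_cases hne : (u - z) % 2 = 1 ∨ (v - z) % 2 = 1
    · exact odd4_of_not_all h hne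
    · push Not at hne
      obtain ⟨h1, h2⟩ := hne
      rcases Int.emod_two_eq_zero_or_one z with hz | hz
      · -- all even
        obtain ⟨u', rfl⟩ : ∃ u', u = 2 * u' := ⟨u / 2, by omega⟩
        obtain ⟨v', rfl⟩ : ∃ v', v = 2 * v' := ⟨v / 2, by omega⟩
        obtain ⟨z', rfl⟩ : ∃ z', z = 2 * z' := ⟨z / 2, by omega⟩
        have h3 : (m : ℤ) = 4 * (u' ^ 2 + v' ^ 2 + 3 * z' ^ 2) := by rw [← h]; ring
        obtain ⟨m₁, rfl⟩ : ∃ m₁, m = 4 * m₁ := ⟨m / 4, by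
          generalize u' ^ 2 + v' ^ 2 + 3 * z' ^ 2 = K at h3
          omega⟩
        have h4 : Rep m₁ := ⟨u', v', z', by push_cast at h3; linarith⟩
        obtain ⟨a, b, c, hc, hodd⟩ := ih m₁ (by omega) (by omega) h4
        refine odd4_of_not_all (u := a) (v := b) (z := c) (by rw [hc]; push_cast; ring) ?_
        have e1 : a % 2 = 0 ∨ a % 2 = 1 := Int.emod_two_eq_zero_or_one a
        have e2 : b % 2 = 0 ∨ b % 2 = 1 := Int.emod_two_eq_zero_or_one b
        by_contra hcon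
        push Not at hcon
        obtain ⟨g1, g2⟩ := hcon
        obtain ⟨a', rfl⟩ : ∃ a', a = 2 * a' + 1 := ⟨a / 2, by omega⟩
        obtain ⟨b', rfl⟩ : ∃ b', b = 2 * b' + 1 := ⟨b / 2, by omega⟩
        obtain ⟨c', rfl⟩ : ∃ c', c = 2 * c' + 1 := ⟨c / 2, by omega⟩
        have e3 : 4 * (a' ^ 2 + a' + b' ^ 2 + b' + 3 * c' ^ 2 + 3 * c') + 5 = 4 * (m₁ : ℤ) := by
          rw [← hc]; ring
        generalize a' ^ 2 + a' + b' ^ 2 + b' + 3 * c' ^ 2 + 3 * c' = K at e3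
        omega
      · -- all odd
        by_cases h5 : ((u - z) / 2) % 2 = 0
        · have e1 : u = 2 * ((u - z) / 2) + z := by omega
          generalize (u - z) / 2 = w at h5 e1
          subst e1
          exact odd4_of_ne (u := v) (v := w + 2 * z) (z := w) (by rw [← h]; ring) (by omega)
        · have e1 : u = 2 * ((u + z) / 2) - z := by omega
          have e2 : ((u + z) / 2) % 2 = 0 := by omega
          generalize (u + z) / 2 = w at e1 e2
          subst e1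
          exact odd4_of_ne (u := v) (v := w - 2 * z) (z := w) (by rw [← h]; ring) (by omega)

/-- Numbers of the form `9 ^ k (9 l + 6)` are not represented. -/
theorem not_rep (k l : ℕ) : ¬ Rep ((9 ^ k * (9 * l + 6) : ℕ) : ℤ) := by
  have key : ∀ u v z m : ℤ, u ^ 2 + v ^ 2 + 3 * z ^ 2 = 3 * m → ∃ u' v', u = 3 * u' ∧ v = 3 * v' := by
    intro u v z m h
    have h1 : u % 3 = 0 ∨ u % 3 = 1 ∨ u % 3 = 2 := by omega
    have h2 : v % 3 = 0 ∨ v % 3 = 1 ∨ v % 3 = 2 := by omega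
    have e1 : u = 3 * (u / 3) + u % 3 := by omega
    have e2 : v = 3 * (v / 3) + v % 3 := by omega
    generalize u / 3 = a at e1
    generalize v / 3 = b at e2
    rcases h1 with h1 | h1 | h1 <;> rcases h2 with h2 | h2 | h2 <;> rw [h1] at e1 <;>
      rw [h2] at e2 <;> subst e1 e2
    · exact ⟨a, b, by ring, by ring⟩
    all_goals
      exfalso
      ring_nf at h
      omega
  induction k with
  | zero =>
    rintro ⟨u, v, z, h⟩
    push_cast at h
    obtain ⟨u', v', rfl, rfl⟩ := key u v z (3 * l + 2) (by rw [h]; ring)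
    have e : z ^ 2 = 3 * (l - u' ^ 2 - v' ^ 2) + 2 := by linarith
    have h1 : z % 3 = 0 ∨ z % 3 = 1 ∨ z % 3 = 2 := by omega
    have e1 : z = 3 * (z / 3) + z % 3 := by omega
    generalize z / 3 = a at e1
    generalize (l - u' ^ 2 - v' ^ 2 : ℤ) = K at e
    rcases h1 with h1 | h1 | h1 <;> rw [h1] at e1 <;> subst e1 <;> ring_nf at e <;> omega
  | succ k ih =>
    rintro ⟨u, v, z, h⟩
    apply ih
    push_cast at h ⊢
    obtain ⟨u', v', rfl, rfl⟩ := key u v z (3 * (9 ^ k * (9 * l + 6))) (by rw [h]; ring)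
    have e9 : (9 : ℤ) ^ (k + 1) = 9 ^ k * 9 := pow_succ 9 k
    rw [e9] at h
    have e : z ^ 2 = 3 * (9 ^ k * (9 * l + 6) - u' ^ 2 - v' ^ 2) := by
      linarith
    have h3 : (3 : ℤ) ∣ z := Int.prime_three.dvd_of_dvd_pow ⟨_, e⟩
    obtain ⟨z', rfl⟩ := h3
    exact ⟨u', v', z', by linarith⟩

/-- The two forms of the condition. -/
lemma admissible_iff (n : ℕ) : (∀ r : ℕ, 1 ≤ r → ¬ (n : ℤ) ≡ 2 * 3 ^ (2 * r - 1) - 1
    [ZMOD 3 ^ (2 * r)]) ↔ ∀ k l : ℕ, n + 1 ≠ 9 ^ k * (9 * l + 6) := by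
  constructor
  · intro h k l hkl
    apply h (k + 1) (by omega)
    have e : (n : ℤ) + 1 = 9 ^ k * (9 * l + 6) := by exact_mod_cast hkl
    rw [Int.modEq_iff_dvd]
    refine ⟨-l, ?_⟩
    have e1 : (3 : ℤ) ^ (2 * (k + 1) - 1) = 3 * 9 ^ k := by
      have : 2 * (k + 1) - 1 = 2 * k + 1 := by omega
      rw [this, pow_succ, pow_mul]; norm_num; ring
    have e2 : (3 : ℤ) ^ (2 * (k + 1)) = 9 * 9 ^ k := by
      rw [pow_mul, pow_succ]; norm_num; ring
    rw [e1, e2]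
    linear_combination -e
  · intro h r hr hcon
    obtain ⟨k, rfl⟩ : ∃ k, r = k + 1 := ⟨r - 1, by omega⟩
    rw [Int.modEq_iff_dvd] at hcon
    obtain ⟨l, hl⟩ := hcon
    have e1 : (3 : ℤ) ^ (2 * (k + 1) - 1) = 3 * 9 ^ k := by
      have : 2 * (k + 1) - 1 = 2 * k + 1 := by omega
      rw [this, pow_succ, pow_mul]; norm_num; ring
    have e2 : (3 : ℤ) ^ (2 * (k + 1)) = 9 * 9 ^ k := by
      rw [pow_mul, pow_succ]; norm_num; ring
    rw [e1, e2] at hl
    have e : (n : ℤ) + 1 = 9 ^ k * (9 * (-l) + 6) := by linear_combination -hl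
    have hpos : (0 : ℤ) < 9 ^ k := by positivity
    have h5 : 0 < (9 : ℤ) ^ k * (9 * (-l) + 6) := by rw [← e]; positivity
    have h6 : 0 < 9 * (-l) + 6 := (mul_pos_iff_of_pos_left hpos).1 h5
    obtain ⟨L, hL⟩ : ∃ L : ℕ, (L : ℤ) = -l := ⟨(-l).toNat, Int.toNat_of_nonneg (by omega)⟩
    apply h k L
    rw [← hL] at e
    exact_mod_cast e

theorem represented_iff (n : ℕ) :
    (∃ x y z : ℤ, (n : ℤ) = x * (x - 1) / 2 + y * (y - 1) / 2 + 6 * (z * (z - 1) / 2)) ↔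
      ∀ r : ℕ, 1 ≤ r → ¬ (n : ℤ) ≡ 2 * 3 ^ (2 * r - 1) - 1 [ZMOD 3 ^ (2 * r)] := by
  have htri : ∀ x : ℤ, x * (x - 1) = 2 * (x * (x - 1) / 2) := by
    intro x
    have : (2 : ℤ) ∣ x * (x - 1) := by
      rcases Int.even_or_odd x with h | h
      · exact (h.two_dvd).mul_right _
      · obtain ⟨c, rfl⟩ := h
        exact ⟨(2 * c + 1) * c, by ring⟩
    omega
  rw [admissible_iff]
  constructor
  · rintro ⟨x, y, z, h⟩ k l hkl
    apply not_rep k (4 * l + 2)
    refine ⟨x + y - 1, x - y, 2 * z - 1, ?_⟩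
    have e : (n : ℤ) + 1 = 9 ^ k * (9 * l + 6) := by exact_mod_cast hkl
    push_cast
    have hx := htri x
    have hy := htri y
    have hz := htri z
    have e2 : 4 * ((n : ℤ) + 1) = 9 ^ k * (9 * (4 * l + 2) + 6) := by rw [e]; ring
    rw [← e2, h]
    linear_combination 2 * hx + 2 * hy + 12 * hz
  · intro h
    obtain ⟨a, b, c, habc, hc⟩ := odd4_of_rep (n + 1) (by omega) (rep_all (n + 1) h)
    push_cast at habc
    -- `a` and `b` have opposite parity
    have hab : (a + b) % 2 = 1 := by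
      obtain ⟨c', rfl⟩ : ∃ c', c = 2 * c' + 1 := ⟨c / 2, by omega⟩
      have e1 : (a + b) ^ 2 = 2 * (2 * ((n : ℤ) + 1) + a * b - 6 * c' ^ 2 - 6 * c' - 2) + 1 := by
        linear_combination habc
      rcases Int.emod_two_eq_zero_or_one (a + b) with h2 | h2
      · exfalso
        obtain ⟨w, hw⟩ : ∃ w, a + b = 2 * w := ⟨(a + b) / 2, by omega⟩
        rw [hw] at e1
        have e3 : (2 * w) ^ 2 = 2 * (2 * w ^ 2) := by ring
        rw [e3] at e1
        omega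
      · exact h2
    refine ⟨(a + b + 1) / 2, (a - b + 1) / 2, (c + 1) / 2, ?_⟩
    obtain ⟨x, hx⟩ : ∃ x, a + b + 1 = 2 * x := ⟨(a + b + 1) / 2, by omega⟩
    obtain ⟨y, hy⟩ : ∃ y, a - b + 1 = 2 * y := ⟨(a - b + 1) / 2, by omega⟩
    obtain ⟨z, hz⟩ : ∃ z, c + 1 = 2 * z := ⟨(c + 1) / 2, by omega⟩
    rw [hx, hy, hz, Int.mul_ediv_cancel_left _ (by norm_num),
      Int.mul_ediv_cancel_left _ (by norm_num), Int.mul_ediv_cancel_left _ (by norm_num)]
    have tx := htri x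
    have ty := htri y
    have tz := htri z
    generalize x * (x - 1) / 2 = X at *
    generalize y * (y - 1) / 2 = Y at *
    generalize z * (z - 1) / 2 = Z at *
    have ha : a = x + y - 1 := by omega
    have hb : b = x - y := by omega
    have hc' : c = 2 * z - 1 := by omega
    subst ha hb hc'
    have : 4 * (n : ℤ) = 4 * (X + Y + 6 * Z) := by
      linear_combination -habc + 2 * tx + 2 * ty + 12 * tz
    linarith

end Pool.Agent.Lib.MP_fb76f8_nt
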